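import Pool.Agent.H27.L1.H68.GHK.Targets
import Pool.Agent.H27.L1.H36.GHK.DLT0

/-!
Row DLT of the board ghk (MP_52e316_nt): the logarithms of the minors near `1`.
-/

set_option autoImplicit false

namespace Pool.Agent.H27.L1.H36.GHK

open MeasureTheory Pool.Agent.H27.L1.H34.GM Pool.Agent.H27.L1.H34.GZ Pool.Agent.H27.L1.H34.GU Pool.Agent.H27.L1.H34.GA
  Pool.Agent.H27.L1.H68.GHK

/-- a matrix as a vector -/
def vc {m : ℕ} (E : Mat m) : V m := fun i j => E i j

theorem prj_entry {m : ℕ} {E : Mat m} (h : Prj E) (i j : Fin m) : |E i j| ≤ 1 := by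
  have h1 : ∀ i, ∑ k, E i k ^ 2 = E i i := by
    intro i
    have h2 : (E * E) i i = E i i := by rw [h.idem]
    rw [Matrix.mul_apply] at h2
    rw [← h2]
    refine Finset.sum_congr rfl fun k _ => ?_
    have h3 : E k i = E i k := by
      have := congrFun (congrFun h.sym i) k
      simpa [Matrix.transpose_apply] using this
    rw [h3]
    ring
  have h2 : ∀ k, E i k ^ 2 ≤ E i i := fun k => by
    rw [← h1 i]
    exact Finset.single_le_sum (f := fun k => E i k ^ 2) (fun k _ => sq_nonneg _)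
      (Finset.mem_univ k)
  have h3 : E i i ≤ 1 := by
    have := h2 i
    by_contra hc
    push Not at hc
    nlinarith
  have h4 := (h2 j).trans h3
  rw [← sq_abs] at h4
  nlinarith [abs_nonneg (E i j)]

theorem prj_norm {m : ℕ} {E : Mat m} (h : Prj E) : ‖vc E‖ ≤ 1 := by
  rw [pi_norm_le_iff_of_nonneg zero_le_one]
  intro i
  rw [pi_norm_le_iff_of_nonneg zero_le_one]
  intro j
  exact prj_entry h i j

theorem one_norm {m : ℕ} : ‖vc (1 : Mat m)‖ ≤ 1 := by
  rw [pi_norm_le_iff_of_nonneg zero_le_one]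
  intro i
  rw [pi_norm_le_iff_of_nonneg zero_le_one]
  intro j
  rw [Real.norm_eq_abs]
  show |(1 : Mat m) i j| ≤ 1
  rw [Matrix.one_apply]
  split_ifs <;> simp

theorem sz_sub_eq {m : ℕ} (z : V m) : sz (mt z - 1) = ‖z - vc (1 : Mat m)‖ := rfl

theorem z_norm {m : ℕ} {z : V m} {r : ℝ} (hr : r ≤ 1 / 2) (hz : sz (mt z - 1) < r) : ‖z‖ ≤ 2 := by
  rw [sz_sub_eq] at hz
  have h1 := norm_add_le (z - vc (1 : Mat m)) (vc (1 : Mat m))
  rw [sub_add_cancel] at h1
  have := one_norm (m := m)
  linarith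

theorem mem_ball {m : ℕ} {E : Mat m} (h : Prj E) {z : V m} (hz : ‖z‖ ≤ 2) :
    (vc E, z) ∈ Metric.closedBall (0 : V m × V m) 2 := by
  rw [mem_closedBall_zero_iff]
  exact max_le ((prj_norm h).trans (by norm_num)) hz

theorem Dt_eq {m : ℕ} (E : Mat m) (z : V m) :
    Dt (vc E, z) = (E * ((mt z).transpose * mt z) * E + 1 - E).det := rfl

theorem Dt_one {m : ℕ} {E : Mat m} (h : Prj E) : Dt (vc E, vc (1 : Mat m)) = 1 := by
  rw [Dt_eq]
  have e : mt (vc (1 : Mat m)) = 1 := rfl
  rw [e, Matrix.transpose_one, Matrix.one_mul, Matrix.mul_one, h.idem, add_sub_cancel_left,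
    Matrix.det_one]

/-- the derivatives in the second variable -/
theorem der_snd {m : ℕ} (k : ℕ) (E : V m) (z : V m) :
    iteratedFDeriv ℝ k (fun z => Ph (E, z)) z =
      (iteratedFDeriv ℝ k Ph (E, z)).compContinuousLinearMap
        fun _ => ContinuousLinearMap.inr ℝ (V m) (V m) := by
  obtain ⟨f, hf⟩ : ∃ f : V m × V m → ℝ, f = fun p => Ph ((E, 0) + p) := ⟨_, rfl⟩
  have hfc : ContDiff ℝ ((⊤ : ℕ∞) : WithTop ℕ∞) f := by
    rw [hf]
    exact cd_Ph.comp (contDiff_const.add contDiff_id)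
  have h1 := ContinuousLinearMap.iteratedFDeriv_comp_right
    (ContinuousLinearMap.inr ℝ (V m) (V m)) hfc z (i := k) (by exact_mod_cast le_top)
  have e1 : (f ∘ ContinuousLinearMap.inr ℝ (V m) (V m)) = fun z => Ph (E, z) := by
    funext z
    rw [hf]
    show Ph ((E, 0) + ((0 : V m), z)) = Ph (E, z)
    rw [Prod.mk_add_mk, add_zero, zero_add]
  rw [e1] at h1
  rw [h1]
  congr 1
  rw [hf]
  have h2 := congrFun (iteratedFDeriv_comp_add_left' (𝕜 := ℝ) (f := (Ph : V m × V m → ℝ)) k
    ((E, 0) : V m × V m)) (ContinuousLinearMap.inr ℝ (V m) (V m) z)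
  rw [h2]
  show iteratedFDeriv ℝ k Ph ((E, 0) + ((0 : V m), z)) = _
  rw [Prod.mk_add_mk, add_zero, zero_add]

theorem norm_comp_inr {m : ℕ} (k : ℕ) (A : ContinuousMultilinearMap ℝ (fun _ : Fin k => V m × V m) ℝ) :
    ‖A.compContinuousLinearMap fun _ => ContinuousLinearMap.inr ℝ (V m) (V m)‖ ≤ ‖A‖ := by
  refine (ContinuousMultilinearMap.norm_compContinuousLinearMap_le _ _).trans ?_
  have h1 : ∏ _i : Fin k, ‖ContinuousLinearMap.inr ℝ (V m) (V m)‖ ≤ 1 :=
    Finset.prod_le_one (fun _ _ => norm_nonneg _)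
      (fun _ _ => ContinuousLinearMap.norm_inr_le_one ℝ (V m) (V m))
  calc ‖A‖ * ∏ _i : Fin k, ‖ContinuousLinearMap.inr ℝ (V m) (V m)‖ ≤ ‖A‖ * 1 :=
        mul_le_mul_of_nonneg_left h1 (norm_nonneg _)
    _ = ‖A‖ := mul_one _

/-- the derivative of the determinant at `1` -/
theorem det_der {m : ℕ} (A B : Mat m) :
    HasDerivAt (fun t : ℝ => (1 + (t • A + t ^ 2 • B)).det) A.trace 0 := by
  -- the determinant of `1 + M` as a function of the entries
  obtain ⟨D, hD⟩ : ∃ D : V m → ℝ, D = fun M : V m => (1 + Matrix.of M).det := ⟨_, rfl⟩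
  have hDc : ContDiff ℝ ((⊤ : ℕ∞) : WithTop ℕ∞) D := by
    have e : D = fun M : V m => ∑ σ : Equiv.Perm (Fin m),
        ((Equiv.Perm.sign σ : ℤ) : ℝ) * ∏ i, ((1 : Mat m) (σ i) i + M (σ i) i) := by
      funext M
      rw [hD]
      show (1 + Matrix.of M).det = _
      rw [Matrix.det_apply']
      rfl
    rw [e]
    exact ContDiff.sum fun σ _ => contDiff_const.mul (contDiff_prod fun i _ =>
      contDiff_const.add (contDiff_apply_apply ℝ ℝ _ _))
  have hDd : HasFDerivAt D (fderiv ℝ D 0) 0 :=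
    (hDc.differentiable (by simp) 0).hasFDerivAt
  -- on lines
  have hline : ∀ C : Mat m, fderiv ℝ D 0 (vc C) = C.trace := by
    intro C
    have h1 : HasDerivAt (fun t : ℝ => t • vc C) (vc C) 0 := by
      simpa using (hasDerivAt_id (0 : ℝ)).smul_const (vc C)
    have h2 : HasFDerivAt D (fderiv ℝ D 0) ((fun t : ℝ => t • vc C) 0) := by
      simpa using hDd
    have h3 := h2.comp_hasDerivAt (0 : ℝ) h1
    have h4 : HasDerivAt (fun t : ℝ => 1 + C.trace * t +
        (Matrix.det (1 + (Polynomial.X : Polynomial ℝ) • C.map Polynomial.C)).divX.divX.eval t *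
          t ^ 2) C.trace 0 := by
      have h5 : HasDerivAt (fun t : ℝ => 1 + C.trace * t) C.trace 0 := by
        simpa using ((hasDerivAt_id (0 : ℝ)).const_mul C.trace).const_add 1
      have h6 : HasDerivAt (fun t : ℝ =>
          (Matrix.det (1 + (Polynomial.X : Polynomial ℝ) • C.map Polynomial.C)).divX.divX.eval t *
            t ^ 2) 0 0 := by
        have h7 := (Polynomial.hasDerivAt (Matrix.det (1 + (Polynomial.X : Polynomial ℝ) •
          C.map Polynomial.C)).divX.divX (0 : ℝ)).mul (hasDerivAt_pow 2 (0 : ℝ))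
        exact h7.congr_deriv (by simp)
      exact (h5.add h6).congr_deriv (by simp)
    have e : (D ∘ fun t : ℝ => t • vc C) = fun t : ℝ => 1 + C.trace * t +
        (Matrix.det (1 + (Polynomial.X : Polynomial ℝ) • C.map Polynomial.C)).divX.divX.eval t *
          t ^ 2 := by
      funext t
      rw [hD, ← Matrix.det_one_add_smul]
      rfl
    rw [e] at h3
    exact h3.unique h4
  have h1 : HasDerivAt (fun t : ℝ => t • vc A + t ^ 2 • vc B) (vc A) 0 := by
    have h2 := ((hasDerivAt_id (0 : ℝ)).smul_const (vc A)).add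
      ((hasDerivAt_pow 2 (0 : ℝ)).smul_const (vc B))
    exact h2.congr_deriv (by simp)
  have h2 : HasFDerivAt D (fderiv ℝ D 0) ((fun t : ℝ => t • vc A + t ^ 2 • vc B) 0) := by
    simpa using hDd
  have h3 := h2.comp_hasDerivAt (0 : ℝ) h1
  rw [hline] at h3
  have e : (D ∘ fun t : ℝ => t • vc A + t ^ 2 • vc B) =
      fun t : ℝ => (1 + (t • A + t ^ 2 • B)).det := by
    funext t
    rw [hD]
    rfl
  rw [e] at h3
  exact h3

/-- **Row DLT** -/
theorem pf_DLT : T_DLT := by
  intro m hm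
  obtain ⟨C0, hC0, hlip0⟩ := lip_ball (W := V m × V m) (G := (Dt : V m × V m → ℝ))
    (cd_Dt.of_le (by exact_mod_cast le_top)) 2
  obtain ⟨r, hr⟩ : ∃ r : ℝ, r = min (1 / 2) (1 / (4 * C0)) := ⟨_, rfl⟩
  have hr0 : 0 < r := by
    rw [hr]
    exact lt_min (by norm_num) (by positivity)
  have hr1 : r ≤ 1 / 2 := by
    rw [hr]
    exact min_le_left _ _
  have hr2 : C0 * r ≤ 1 / 4 := by
    have h1 : r ≤ 1 / (4 * C0) := by
      rw [hr]
      exact min_le_right _ _
    calc C0 * r ≤ C0 * (1 / (4 * C0)) := mul_le_mul_of_nonneg_left h1 hC0.le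
      _ = 1 / 4 := by field_simp
  have hdet : ∀ E : Mat m, Prj E → ∀ z : V m, sz (mt z - 1) < r → 1 / 2 ≤ Dt (vc E, z) := by
    intro E hE z hz
    have h1 := (hlip0 _ (mem_ball hE (z_norm hr1 hz)) _
      (mem_ball hE (z := vc (1 : Mat m)) (one_norm.trans (by norm_num)))).2
    rw [Dt_one hE, Prod.mk_sub_mk, sub_self] at h1
    have h2 : ‖((0 : V m), z - vc (1 : Mat m))‖ ≤ r := by
      rw [sz_sub_eq] at hz
      exact max_le (by rw [norm_zero]; exact hr0.le) hz.le
    have h3 := h1.trans (mul_le_mul_of_nonneg_left h2 hC0.le)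
    rw [Real.norm_eq_abs, abs_le] at h3
    linarith [h3.1]
  have hFE : ∀ E : Mat m, Prj E → ∀ z : V m, sz (mt z - 1) < r → FE E z = Ph (vc E, z) := by
    intro E hE z hz
    unfold Ph
    rw [lg_eq (hdet E hE z hz), Dt_eq]
    rfl
  have hopen : IsOpen {z : V m | sz (mt z - 1) < r} := by
    have : Continuous fun z : V m => sz (mt z - 1) := by
      simp only [sz_sub_eq]
      fun_prop
    exact isOpen_lt this continuous_const
  have hcd : ∀ E : V m, ContDiff ℝ ((⊤ : ℕ∞) : WithTop ℕ∞) fun z => Ph (E, z) := fun E =>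
    cd_Ph.comp (contDiff_const.prodMk contDiff_id)
  have hev : ∀ E : Mat m, Prj E → ∀ z : V m, sz (mt z - 1) < r →
      FE E =ᶠ[nhds z] fun z => Ph (vc E, z) := by
    intro E hE z hz
    filter_upwards [hopen.mem_nhds hz] with x hx
    exact hFE E hE x hx
  refine ⟨r, hr0, hr1, fun E hE => ⟨fun z hz => ?_, ?_, fun X => ?_⟩, fun K => ?_⟩
  · have := hdet E hE z hz
    rw [Dt_eq] at this
    linarith
  · exact (hcd (vc E)).contDiffOn.congr fun z hz => hFE E hE z hz
  · -- the gradient at `1`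
    have h0 : sz (mt (vc (1 : Mat m)) - 1) < r := by
      rw [sz_sub_eq, sub_self, norm_zero]
      exact hr0
    have hd : DifferentiableAt ℝ (FE E) (vc (1 : Mat m)) :=
      ((hcd (vc E)).differentiable (by simp) _).congr_of_eventuallyEq (hev E hE _ h0)
    have h1 : HasDerivAt (fun t : ℝ => vc (1 : Mat m) + t • X) X 0 := by
      simpa using ((hasDerivAt_id (0 : ℝ)).smul_const X).const_add (vc (1 : Mat m))
    have h2 : HasFDerivAt (FE E) (fderiv ℝ (FE E) (vc (1 : Mat m)))
        ((fun t : ℝ => vc (1 : Mat m) + t • X) 0) := by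
      simpa using hd.hasFDerivAt
    have h3 := h2.comp_hasDerivAt (0 : ℝ) h1
    have h4 := det_der (E * ((mt X).transpose + mt X) * E) (E * ((mt X).transpose * mt X) * E)
    have h5 := h4.log (by simp)
    have e : (FE E ∘ fun t : ℝ => vc (1 : Mat m) + t • X) = fun t : ℝ =>
        Real.log (1 + (t • (E * ((mt X).transpose + mt X) * E) +
          t ^ 2 • (E * ((mt X).transpose * mt X) * E))).det := by
      funext t
      show Real.log (E * ((mt (vc (1 : Mat m) + t • X)).transpose *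
        mt (vc (1 : Mat m) + t • X)) * E + 1 - E).det = _
      congr 2
      have e1 : mt (vc (1 : Mat m) + t • X) = 1 + t • mt X := rfl
      rw [e1, Matrix.transpose_add, Matrix.transpose_one, Matrix.transpose_smul]
      have e2 : (1 + t • (mt X).transpose) * (1 + t • mt X) =
          1 + t • ((mt X).transpose + mt X) + t ^ 2 • ((mt X).transpose * mt X) := by
        rw [Matrix.add_mul, Matrix.one_mul, Matrix.mul_add, Matrix.mul_one, Matrix.smul_mul,
          Matrix.mul_smul, smul_smul, smul_add, sq]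
        abel
      rw [e2, Matrix.mul_add, Matrix.mul_add, Matrix.mul_one, Matrix.add_mul, Matrix.add_mul,
        hE.idem, Matrix.mul_smul, Matrix.smul_mul, Matrix.mul_smul, Matrix.smul_mul]
      abel
    rw [e] at h3
    have h6 := h3.unique h5
    have h7 : fderiv ℝ (FE E) ((fun i j => (1 : Mat m) i j) : V m) X =
        fderiv ℝ (FE E) (vc (1 : Mat m)) X := rfl
    rw [h7, h6]
    have h8 : (E * ((mt X).transpose + mt X) * E).trace = 2 * (E * mt X).trace := by
      rw [Matrix.trace_mul_comm, ← Matrix.mul_assoc, hE.idem, Matrix.mul_add, Matrix.trace_add]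
      have h9 : (E * (mt X).transpose).trace = (E * mt X).trace := by
        rw [← Matrix.trace_transpose, Matrix.transpose_mul, Matrix.transpose_transpose, hE.sym,
          Matrix.trace_mul_comm]
      rw [h9]
      ring
    rw [h8]
    simp
  · -- the bounds
    have h1 : ∀ k : ℕ, ∃ C : ℝ, 0 < C ∧ ∀ p ∈ Metric.closedBall (0 : V m × V m) 2,
        ∀ q ∈ Metric.closedBall (0 : V m × V m) 2,
          ‖iteratedFDeriv ℝ k Ph p‖ ≤ C ∧
            ‖iteratedFDeriv ℝ k Ph p - iteratedFDeriv ℝ k Ph q‖ ≤ C * ‖p - q‖ := by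
      intro k
      refine lip_ball (G := iteratedFDeriv ℝ k (Ph : V m × V m → ℝ)) ?_ 2
      exact cd_Ph.iteratedFDeriv_right (by exact_mod_cast le_top)
    choose C hC hCb using h1
    refine ⟨∑ k ∈ Finset.range (K + 1), C k, Finset.sum_pos (fun k _ => hC k)
      ⟨0, Finset.mem_range.2 (Nat.succ_pos K)⟩, fun k hk E E' hE hE' z hz => ?_⟩
    have hCk : C k ≤ ∑ k ∈ Finset.range (K + 1), C k :=
      Finset.single_le_sum (f := C) (fun k _ => (hC k).le) (Finset.mem_range.2 (by omega))
    have hz2 := z_norm hr1 hz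
    obtain ⟨hb, hl⟩ := hCb k _ (mem_ball hE hz2) _ (mem_ball hE' hz2)
    constructor
    · rw [((hev E hE z hz).iteratedFDeriv ℝ k).eq_of_nhds, der_snd]
      exact (norm_comp_inr k _).trans (hb.trans hCk)
    · have e1 : (fun z => FE E z - FE E' z) =ᶠ[nhds z]
          ((fun z => Ph (vc E, z)) - fun z => Ph (vc E', z)) := by
        filter_upwards [hev E hE z hz, hev E' hE' z hz] with x h1 h2
        rw [h1, h2]
        rfl
      rw [(e1.iteratedFDeriv ℝ k).eq_of_nhds, iteratedFDeriv_sub_apply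
        ((hcd _).contDiffAt.of_le (by exact_mod_cast le_top))
        ((hcd _).contDiffAt.of_le (by exact_mod_cast le_top)), der_snd, der_snd]
      have e2 : (iteratedFDeriv ℝ k Ph (vc E, z)).compContinuousLinearMap
          (fun _ => ContinuousLinearMap.inr ℝ (V m) (V m)) -
          (iteratedFDeriv ℝ k Ph (vc E', z)).compContinuousLinearMap
          (fun _ => ContinuousLinearMap.inr ℝ (V m) (V m)) =
          (iteratedFDeriv ℝ k Ph (vc E, z) -
            iteratedFDeriv ℝ k Ph (vc E', z)).compContinuousLinearMap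
            (fun _ => ContinuousLinearMap.inr ℝ (V m) (V m)) := rfl
      rw [e2]
      refine (norm_comp_inr k _).trans (hl.trans ?_)
      have h3 : ‖((vc E, z) : V m × V m) - (vc E', z)‖ ≤ sz (E - E') := by
        rw [Prod.mk_sub_mk, sub_self]
        exact max_le le_rfl (by rw [norm_zero]; exact norm_nonneg _)
      exact mul_le_mul hCk h3 (norm_nonneg _) ((hC k).le.trans hCk)

end Pool.Agent.H27.L1.H36.GHK
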